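import Pool.Agent.helper22.RG9.Spec2

/-!
# Project rg9, row CJ2: conjugation of the logarithms by root elements (power representations)
-/

set_option autoImplicit false

namespace Pool.Agent.RG9

open Matrix Pool.Agent.H48SL Pool.Agent.UG

theorem CJ2_ss {D : Type} [Group D] {n m E : ℕ} (F : D → SLZ n) {X : Fin m → Fin m → Subgroup D} {i j : Fin m}
    (hij : i ≠ j) {y : D} (hy : y ∈ X i j) :
    lg (F y ^ E) ∈ SS (fun i j => LE E (im F (X i j))) :=
  Submodule.subset_span (Or.inl ⟨i, j, hij,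
    Submodule.subset_span ⟨F y, Subgroup.subset_closure ⟨y, hy, rfl⟩, rfl⟩⟩)

theorem CJ2_key (hWGI : WGI_stmt) (hGR2 : GR2_stmt) (hLGF : LGF_stmt) {D : Type} [Group D] {n m N k : ℕ}
    (hm : 3 ≤ m) {F : D → SLZ n} (hF : PR k F) {X : Fin m → Fin m → Subgroup D} (hX : WG N X)
    {i j p q : Fin m} (hij : i ≠ j) (hpq : p ≠ q) {x y u : D} (hy : y ∈ X i j) (hu : u ∈ X p q)
    (huy : u * y = y * u) (h : x * y * x⁻¹ = u * y) :
    lg (F (x * y * x⁻¹) ^ (N * k * n.factorial)) ∈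
      SS (fun i j => LE (N * k * n.factorial) (im F (X i j))) := by
  have hW := hWGI D n m N k hm F hF X hX
  have hyU : Unp (F y ^ (N * k * n.factorial)) :=
    hGR2 n m (N * k) hm _ hW i j hij (F y) (Subgroup.subset_closure ⟨y, hy, rfl⟩)
  have huU : Unp (F u ^ (N * k * n.factorial)) :=
    hGR2 n m (N * k) hm _ hW p q hpq (F u) (Subgroup.subset_closure ⟨u, hu, rfl⟩)
  have hc : Commute (F u) (F y) := by
    show F u * F y = F y * F u
    rw [← hF.mul u y huy, ← hF.mul y u huy.symm, huy]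
  rw [h, hF.mul u y huy, hc.mul_pow]
  obtain ⟨-, h2, -⟩ := hLGF n
  rw [(h2 (F u ^ (N * k * n.factorial)) (F y ^ (N * k * n.factorial)) huU hyU (hc.pow_pow _ _)).2]
  exact Submodule.add_mem _ (CJ2_ss F hpq hu) (CJ2_ss F hij hy)

theorem CJ2 (hIMG : IMG_stmt) (hWGI : WGI_stmt) (hGR2 : GR2_stmt) (hLGF : LGF_stmt) : CJ2_stmt := by
  intro D _ n m N k hm F hF X hX i j p q hij hpq hne x hx
  rw [LE, Submodule.span_le]
  rintro Z ⟨g, hg, rfl⟩
  obtain ⟨y, hy, rfl⟩ := (hIMG D n k _ ((hIMG D n k F hF).2.2 x)).2.1 (X i j)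
    (hX.comm i j i j hij hij hij.symm hij) g hg
  show lg (F (x * y * x⁻¹) ^ (N * k * n.factorial)) ∈
    SS (fun i j => LE (N * k * n.factorial) (im F (X i j)))
  by_cases h1 : q = i
  · -- `x ∈ X p i`, `y ∈ X i j`
    have hpj : p ≠ j := fun h => hne ⟨h, h1⟩
    subst h1
    have hu : x * y * x⁻¹ * y⁻¹ ∈ X p j := hX.sub p q j hpq hij hpj x hx y hy
    exact CJ2_key hWGI hGR2 hLGF hm hF hX hij hpj hy hu
      (hX.comm p j q j hpj hij hij.symm hpj _ hu _ hy) (by group)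
  · by_cases h2 : p = j
    · -- `x ∈ X j q`, `y ∈ X i j`
      subst h2
      have hiq : i ≠ q := fun h => h1 h.symm
      have hu' : y * x * y⁻¹ * x⁻¹ ∈ X i q := hX.sub i p q hij hpq hiq y hy x hx
      have hu : x * y * x⁻¹ * y⁻¹ ∈ X i q := by
        have h3 := (X i q).inv_mem hu'
        have e : (y * x * y⁻¹ * x⁻¹)⁻¹ = x * y * x⁻¹ * y⁻¹ := by group
        rwa [e] at h3
      exact CJ2_key hWGI hGR2 hLGF hm hF hX hij hiq hy hu
        (hX.comm i q i p hiq hij (Ne.symm hiq) hij _ hu _ hy) (by group)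
    · -- commuting root groups
      have hc : x * y = y * x := hX.comm p q i j hpq hij h1 h2 x hx y hy
      have e : x * y * x⁻¹ = y := by rw [hc, mul_inv_cancel_right]
      rw [e]
      exact CJ2_ss F hij hy

end Pool.Agent.RG9
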